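import Mathlib
import Pool.Agent.TH193.RS.Main2

/-!
# The Fermat-Catalan equation for numbers composed of random primes

Fix `M`.  Let `p_1, …, p_k` be primes chosen at random below bounds `N'_i ≥ N`, with
`k, K ≤ (log N) ^ (1/10)`.  With probability at least `1 - exp (-c log N / log log N)` no sum and no
difference of two coprime numbers composed of the `p_i` (other than `1 ± 1`) is of the form `c C ^ m`
with an ARBITRARY `C`, a prime exponent `m ≤ M` and a coefficient `c` composed of the `p_i` and of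
primes up to `K`.  (For sums `m` or `c` must be odd.)

For `c = 1` these are the equations `x ^ s + y ^ t = z ^ m` and `x ^ s - y ^ t = z ^ m` in coprime
numbers for which `x y` is composed of the random primes.

The proof is in `Pool/Agent/TH193/RS/` (a development of the starting library).
-/

set_option autoImplicit false

namespace Pool.Agent.Results.MP_509488_nt.RandomPrimeSupport

/-- all prime divisors of `a` are among the `p i` -/
def ComposedOf {k : ℕ} (p : Fin k → ℕ) (a : ℕ) : Prop := ∀ r : ℕ, r.Prime → r ∣ a → ∃ i, r = p i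

/-- there are coprime `a, b > 0` composed of the `p i`, not both equal to `1`, a positive `c` all of
whose prime divisors are at most `K` or among the `p i`, an integer `C > 0` and a prime `m ≤ M` with
`a - b = c C ^ m`, or with `a + b = c C ^ m` and `m` or `c` odd -/
def HasSolution {k : ℕ} (K M : ℕ) (p : Fin k → ℕ) : Prop :=
  ∃ a b c C m : ℕ, 0 < a ∧ 0 < b ∧ a.Coprime b ∧ ComposedOf p a ∧ ComposedOf p b ∧ 1 < a * b ∧
    0 < c ∧ (∀ r : ℕ, r.Prime → r ∣ c → r ≤ K ∨ ∃ i, r = p i) ∧ 0 < C ∧ m.Prime ∧ m ≤ M ∧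
    (a = b + c * C ^ m ∨ ((Odd m ∨ Odd c) ∧ a + b = c * C ^ m))

/-- For every `M` there are `c > 0` and `N₀` such that for all `N ≥ N₀`, all
`k, K ≤ (log N) ^ (1/10)` and all bounds `N'_1, …, N'_k ≥ N` the number of the `k`-tuples of primes
`p_i ≤ N'_i` with a solution is at most `exp (-c log N / log log N) ∏ π(N'_i)`. -/
theorem result (M : ℕ) : ∃ c : ℝ, 0 < c ∧ ∃ N₀ : ℕ, ∀ N : ℕ, N₀ ≤ N →
    ∀ k K : ℕ, (k : ℝ) ≤ Real.log N ^ (1 / 10 : ℝ) → (K : ℝ) ≤ Real.log N ^ (1 / 10 : ℝ) →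
    ∀ N' : Fin k → ℕ, (∀ i, N ≤ N' i) →
      ({p : Fin k → ℕ | (∀ i, (p i).Prime ∧ p i ≤ N' i) ∧ HasSolution K M p}.ncard : ℝ) ≤
        Real.exp (-c * (Real.log N / Real.log (Real.log N))) *
          ∏ i, (Nat.primeCounting (N' i) : ℝ) := by
  classical
  obtain ⟨c, hc, N₀, h⟩ := Pool.Agent.TH193.RS.main2 M
  refine ⟨c, hc, N₀, fun N hN k K hk hK N' hN' => ?_⟩
  refine le_trans ?_ (h N hN k K hk hK N' hN')
  have e : {p : Fin k → ℕ | (∀ i, (p i).Prime ∧ p i ≤ N' i) ∧ HasSolution K M p} =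
      (((Fintype.piFinset (fun i => Pool.Agent.TH193.RS.PR (N' i))).filter
        (fun p => Pool.Agent.TH193.RS.Sol K M p) : Finset (Fin k → ℕ)) : Set (Fin k → ℕ)) := by
    ext p
    simp only [Set.mem_ofPred_eq, Finset.coe_filter, Fintype.mem_piFinset,
      Pool.Agent.TH193.RS.PR, Finset.mem_filter, Finset.mem_Icc]
    constructor
    · rintro ⟨h1, h2⟩
      exact ⟨fun i => ⟨⟨(h1 i).1.one_le, (h1 i).2⟩, (h1 i).1⟩, h2⟩
    · rintro ⟨h1, h2⟩
      exact ⟨fun i => ⟨(h1 i).2, (h1 i).1.2⟩, h2⟩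
  rw [e, Set.ncard_coe_finset]

end Pool.Agent.Results.MP_509488_nt.RandomPrimeSupport
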