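import Pool.Agent.H361R2.PA.MultA

set_option autoImplicit false
set_option maxHeartbeats 4000000

/-!
# Record prime gaps around a multiple of every integer, uniformly

Write `f(X) = log X (log₂ X)² log₄ X / (log₃ X)²` (the size of the largest prime gaps known below `X`).
For every `D` there is `c > 0` such that for all large `X`, all integers `α` with
`1 ≤ α ≤ exp ((log X) ^ D)` and all integers `z` some multiple `α n` with `z + X / 4 < n ≤ z + X` has no
prime within `c (φ(α) / α) f(X)`.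

The proof is in `Pool/Agent/H361R2/PA/MultA.lean` (a development of the starting library).
-/

namespace Pool.Agent.Results.MP_69be96_nt.MultiplesOfEveryInteger

/-- `f(X) = log X (log₂ X)² log₄ X / (log₃ X)²` -/
noncomputable def f (X : ℝ) : ℝ :=
  Real.log X * Real.log (Real.log X) ^ 2 * Real.log (Real.log (Real.log (Real.log X))) /
    Real.log (Real.log (Real.log X)) ^ 2

theorem result (D : ℕ) : ∃ c : ℝ, 0 < c ∧ ∃ X₀ : ℝ, ∀ X : ℝ, X₀ ≤ X →
    ∀ α : ℕ, 1 ≤ α → (α : ℝ) ≤ Real.exp (Real.log X ^ D) →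
    ∀ z : ℤ, ∃ n : ℤ, (z : ℝ) + X / 4 < n ∧ (n : ℝ) ≤ z + X ∧
      ∀ m : ℤ, |(m : ℝ) - α * n| ≤ c * ((Nat.totient α : ℝ) / α) * f X → ¬ Prime m := by
  obtain ⟨c, hc, X₀, h⟩ := Pool.Agent.H361R2.PA.multM D
  refine ⟨c, hc, max X₀ (Real.exp 1), fun X hX α hα hαX z => ?_⟩
  have hX0 : X₀ ≤ X := (le_max_left _ _).trans hX
  have hX1 : Real.exp 1 ≤ X := (le_max_right _ _).trans hX
  have hL : 1 ≤ Real.log X := by
    rw [← Real.log_exp 1]
    exact Real.log_le_log (Real.exp_pos _) hX1
  have hα0 : (0 : ℝ) < α := by exact_mod_cast (by omega : 0 < α)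
  have hlog : Real.log α ≤ Real.log X ^ (D + 1) := by
    have h1 : Real.log α ≤ Real.log X ^ D := by
      rw [← Real.log_exp (Real.log X ^ D)]
      exact Real.log_le_log hα0 hαX
    exact h1.trans (pow_le_pow_right₀ hL (by omega))
  obtain ⟨n, hn1, hn2, hn3⟩ := h X hX0 α hα hlog z
  refine ⟨n, hn1, hn2, fun m hm => ?_⟩
  have e := hn3 (m - (α : ℤ) * n) (by
    have h1 : Pool.Agent.H361R2.PA.FF 1 X = f X := by
      unfold Pool.Agent.H361R2.PA.FF f
      rw [pow_one]
    rw [h1]
    push_cast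
    rw [← mul_assoc]
    exact hm)
  rwa [show (α : ℤ) * n + (m - α * n) = m by ring] at e

end Pool.Agent.Results.MP_69be96_nt.MultiplesOfEveryInteger
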