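import Pool.Agent.H361R2.PA.MultA

set_option autoImplicit false

/-!
# Every large integer multiplier: record prime-free intervals around multiples, in every interval

For all `D` there is `c > 0` such that for all large `X`, ALL integers `α ≥ 1` with
`log α ≤ (log X) ^ (D + 1)` and all integers `z`, there is an integer `n` with `z + X / 4 < n ≤ z + X`
such that no integer within `c (φ(α) / α) f(X)` of the multiple `α n` is a prime (or minus a prime);
`f(X) = log X (log₂ X)² log₄ X / (log₃ X)²` is the size of the largest prime gaps known.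

The multiplier is arbitrary (also with all small primes among its prime factors: only the factor `φ(α) / α` is lost), it may be
as large as `exp ((log X) ^ (D + 1))`, i.e. larger than every power of `X`, and the place of the interval that contains `n` is
arbitrary.
-/

namespace Pool.Agent.Results.MP_711652_nt.MultiplesOfEveryInteger

/-- The record scale `f(x) = log x (log₂ x)² log₄ x / (log₃ x)²` (iterated natural logarithms). -/
noncomputable def f (x : ℝ) : ℝ :=
  Real.log x * (Real.log (Real.log x)) ^ 2 * Real.log (Real.log (Real.log (Real.log x))) /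
    (Real.log (Real.log (Real.log x))) ^ 2

theorem result (D : ℕ) : ∃ c : ℝ, 0 < c ∧ ∃ X₀ : ℝ, ∀ X : ℝ, X₀ ≤ X →
    ∀ α : ℕ, 1 ≤ α → Real.log α ≤ (Real.log X) ^ (D + 1) →
    ∀ z : ℤ, ∃ n : ℤ, (z : ℝ) + X / 4 < n ∧ (n : ℝ) ≤ z + X ∧
      ∀ m : ℤ, |(m : ℝ) - α * n| ≤ c * ((Nat.totient α : ℝ) / α * f X) → ¬ Prime m := by
  obtain ⟨c, hc, X₀, h⟩ := Pool.Agent.H361R2.PA.multM D
  refine ⟨c, hc, X₀, fun X hX α hα hl z => ?_⟩
  obtain ⟨n, h1, h2, h3⟩ := h X hX α hα hl z
  refine ⟨n, h1, h2, fun m hm => ?_⟩
  have hf : f X = Pool.Agent.H361R2.PA.FF 1 X := by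
    unfold f Pool.Agent.H361R2.PA.FF
    norm_num
  have h4 := h3 (m - (α : ℤ) * n) (by
    push_cast
    rw [← hf]
    exact hm)
  rwa [add_sub_cancel] at h4

end Pool.Agent.Results.MP_711652_nt.MultiplesOfEveryInteger
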